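import Pool.Agent.Work.MP_d4c219_nt.Defs

/-!
# Counting the surviving residue classes modulo 5040 (helper59)

For a fixed `y` the excluded `u` are collected in a number (bit `u` is set if `u` is excluded).
-/

set_option autoImplicit false

namespace Pool.Agent.KFour

open Finset

/-- the bits `0, o, 2 o, …, 5040` -/
def Bp (o : ℕ) : ℕ := (2 ^ (5040 + o) - 1) / (2 ^ o - 1)

/-- parameters of a sieving prime: `p, o, j, y₀, f₀, D` -/
abbrev Par : Type := ℕ × ℕ × ℕ × ℕ × ℕ × ℕ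

/-- the exclusions of one prime -/
def rowOne (t : Par) (y : ℕ) : ℕ :=
  cond (Nat.beq (y % t.2.2.1) t.2.2.2.1)
    (Bp t.2.1 <<< ((t.2.2.2.2.1 + (y / t.2.2.1) * t.2.2.2.2.2) % t.2.1)) 0

/-- the exclusions of a list of primes -/
noncomputable def row (L : List Par) (y : ℕ) : ℕ :=
  L.rec 0 fun t _ ih => rowOne t y ||| ih

theorem row_nil (y : ℕ) : row [] y = 0 := rfl

theorem row_cons (t : Par) (L : List Par) (y : ℕ) : row (t :: L) y = rowOne t y ||| row L y := rfl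

/-- the exclusions by algebraic factors -/
def rowAlg (y : ℕ) : ℕ :=
  cond (Nat.beq (y % 3) 0) (Bp 3) 0 ||| (cond (Nat.beq (y % 5) 0) (Bp 5) 0 |||
    cond (Nat.beq (y % 7) 0) (Bp 7) 0)

/-- all exclusions: bit `i` is set only if the exponent `i` is excluded -/
noncomputable def rowAll (L : List Par) (y : ℕ) : ℕ := rowAlg y ||| row L y

/-- the bits `0, 13, …, 5031` -/
def M13 : ℕ := (2 ^ 5044 - 1) / (2 ^ 13 - 1)

/-- sums -/
noncomputable def SS (f : ℕ → ℕ) (n : ℕ) : ℕ := Nat.rec 0 (fun k ih => ih + f k) n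

/-- number of bits -/
noncomputable def pc (n : ℕ) : ℕ := SS (fun j => (n >>> j) &&& M13) 13 % 8191

/-- the number of surviving `u` is at most this -/
noncomputable def cc (L : List Par) (y : ℕ) : ℕ :=
  5040 - pc ((rowAll L y ||| (rowAll L y >>> 1)) % 2 ^ 5040)

/-- primes and parameters for the sign `-` -/
def LM : List Par := [(5, 4, 1, 0, 0, 1), (7, 3, 2, 0, 0, 2), (11, 10, 1, 0, 0, 2),
  (13, 12, 1, 0, 0, 8), (17, 8, 2, 0, 0, 1), (19, 18, 1, 0, 0, 5), (29, 28, 1, 0, 0, 23),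
  (31, 5, 6, 0, 0, 1), (37, 36, 1, 0, 0, 10), (41, 20, 2, 0, 0, 5), (43, 14, 3, 0, 0, 3),
  (61, 60, 1, 0, 0, 54), (71, 35, 1, 0, 0, 19), (73, 9, 4, 0, 0, 6), (97, 48, 1, 0, 0, 29),
  (113, 28, 4, 0, 0, 9), (127, 7, 18, 0, 0, 5), (181, 180, 1, 0, 0, 124),
  (211, 210, 1, 0, 0, 167), (241, 24, 5, 0, 0, 23), (281, 70, 4, 0, 0, 59),
  (337, 21, 8, 0, 0, 5), (421, 420, 1, 0, 0, 16), (577, 144, 1, 0, 0, 39),
  (631, 45, 14, 0, 0, 32), (673, 48, 7, 0, 0, 26), (1009, 504, 1, 0, 0, 447),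
  (2017, 336, 3, 0, 0, 233), (2521, 1260, 1, 0, 0, 710), (3361, 168, 10, 0, 0, 37),
  (13441, 1680, 1, 0, 0, 155)]

/-- primes and parameters for the sign `+` -/
def LP : List Par := [(5, 4, 1, 0, 2, 1), (7, 3, 2, 1, 1, 2), (11, 10, 1, 0, 5, 2),
  (13, 12, 1, 0, 6, 8), (17, 8, 2, 0, 4, 1), (19, 18, 1, 0, 9, 5), (29, 28, 1, 0, 14, 23),
  (31, 5, 6, 3, 3, 1), (37, 36, 1, 0, 18, 10), (41, 20, 2, 0, 10, 5), (43, 14, 3, 0, 7, 3),
  (61, 60, 1, 0, 30, 54), (73, 9, 4, 2, 3, 6), (97, 48, 1, 0, 24, 29), (113, 28, 4, 0, 14, 9),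
  (127, 7, 18, 9, 6, 5), (181, 180, 1, 0, 90, 124), (211, 210, 1, 0, 105, 167),
  (241, 24, 5, 0, 12, 23), (281, 70, 4, 0, 35, 59), (337, 21, 8, 4, 13, 5),
  (421, 420, 1, 0, 210, 16), (577, 144, 1, 0, 72, 39), (631, 45, 14, 7, 16, 32),
  (673, 48, 7, 0, 24, 26), (1009, 504, 1, 0, 252, 447), (2017, 336, 3, 0, 168, 233),
  (2521, 1260, 1, 0, 630, 710), (3361, 168, 10, 0, 84, 37), (13441, 1680, 1, 0, 840, 155)]

/-- the conditions on the parameters -/
def Valid (t : Par) : Prop :=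
  t.1 ∈ P0 ∧ 0 < t.2.1 ∧ 5040 % t.2.1 = 0 ∧ 0 < t.2.2.1 ∧ 2 ^ t.2.1 % t.1 = 1 ∧
    (2 ^ t.2.2.2.2.2 * 3 ^ t.2.2.1) % t.1 = 1

instance (t : Par) : Decidable (Valid t) := by unfold Valid; infer_instance

theorem valid_LM : ∀ t ∈ LM, Valid t ∧ (2 ^ t.2.2.2.2.1 * 3 ^ t.2.2.2.1) % t.1 = 1 := by
  decide +kernel

theorem valid_LP : ∀ t ∈ LP, Valid t ∧ (2 ^ t.2.2.2.2.1 * 3 ^ t.2.2.2.1 + 1) % t.1 = 0 := by
  decide +kernel

theorem sumM_eq : SS (fun a => SS (fun b =>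
    cond (Nat.beq ((72 * a + b) % 2) 1) (cc LM (72 * a + b)) 0) 72) 70 = 1840182 := by
  decide +kernel

theorem sumP_eq : SS (fun a => SS (fun b => cc LP (72 * a + b)) 72) 70 = 1879404 := by
  decide +kernel

/-! ### Sums -/

theorem SS_eq (f : ℕ → ℕ) (n : ℕ) : SS f n = ∑ i ∈ range n, f i := by
  induction n with
  | zero => rfl
  | succ n ih =>
    rw [Finset.sum_range_succ, ← ih]
    rfl

theorem sum_blocks (f : ℕ → ℕ) (m : ℕ) : ∀ n : ℕ,
    ∑ i ∈ range (m * n), f i = ∑ a ∈ range n, ∑ b ∈ range m, f (m * a + b)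
  | 0 => by simp
  | (n + 1) => by
    rw [Nat.mul_succ, Finset.sum_range_add, sum_blocks f m n, Finset.sum_range_succ]

theorem SS_blocks (f : ℕ → ℕ) :
    SS (fun a => SS (fun b => f (72 * a + b)) 72) 70 = ∑ y ∈ range 5040, f y := by
  rw [show (5040 : ℕ) = 72 * 70 by norm_num, sum_blocks f 72 70, SS_eq]
  exact Finset.sum_congr rfl fun a _ => SS_eq _ _

/-! ### Bits -/

theorem geom_lt (o T : ℕ) (ho : 0 < o) : ∑ t ∈ range T, (2 ^ o) ^ t < 2 ^ (o * T) := by
  have h2 : 2 ≤ 2 ^ o := by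
    calc 2 = 2 ^ 1 := rfl
      _ ≤ 2 ^ o := Nat.pow_le_pow_right (by norm_num) ho
  induction T with
  | zero => simp
  | succ T ih =>
    rw [Finset.sum_range_succ, ← pow_mul, Nat.mul_succ, pow_add]
    have h3 : 0 < 2 ^ (o * T) := by positivity
    nlinarith

theorem testBit_geom (o : ℕ) (ho : 0 < o) (T i : ℕ)
    (h : Nat.testBit (∑ t ∈ range T, (2 ^ o) ^ t) i = true) : ∃ t < T, i = o * t := by
  induction T with
  | zero => simp at h
  | succ T ih =>
    rw [Finset.sum_range_succ, ← pow_mul, add_comm] at h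
    have h1 := Nat.two_pow_add_eq_or_of_lt (geom_lt o T ho) 1
    rw [mul_one] at h1
    rw [h1, Nat.testBit_or, Bool.or_eq_true] at h
    rcases h with h | h
    · rw [Nat.testBit_two_pow, decide_eq_true_eq] at h
      exact ⟨T, Nat.lt_succ_self T, h.symm⟩
    · obtain ⟨t, ht, hi⟩ := ih h
      exact ⟨t, Nat.lt_succ_of_lt ht, hi⟩

theorem Bp_eq (o : ℕ) (ho : 0 < o) (hd : 5040 % o = 0) :
    Bp o = ∑ t ∈ range (5040 / o + 1), (2 ^ o) ^ t := by
  have h2 : 2 ≤ 2 ^ o := by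
    calc 2 = 2 ^ 1 := rfl
      _ ≤ 2 ^ o := Nat.pow_le_pow_right (by norm_num) ho
  rw [Nat.geomSum_eq h2, ← pow_mul, Nat.mul_succ, Nat.mul_div_cancel' (Nat.dvd_of_mod_eq_zero hd)]
  rfl

theorem testBit_Bp {o i : ℕ} (ho : 0 < o) (hd : 5040 % o = 0) (h : (Bp o).testBit i = true) :
    o ∣ i := by
  rw [Bp_eq o ho hd] at h
  obtain ⟨t, _, hi⟩ := testBit_geom o ho _ i h
  exact ⟨t, hi⟩

/-! ### Exclusions are correct -/

theorem modEq_key {p o j y₀ f₀ D i y : ℕ} (h1 : 2 ^ o % p = 1) (h2 : (2 ^ D * 3 ^ j) % p = 1)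
    (hy : y % j = y₀) (hi : ∃ s, i = (f₀ + (y / j) * D) % o + o * s) :
    2 ^ i * 3 ^ y ≡ 2 ^ f₀ * 3 ^ y₀ [MOD p] := by
  have hp1 : 1 % p = 1 := by
    rw [← h1, Nat.mod_mod]
  have e1 : 2 ^ o ≡ 1 [MOD p] := by
    rw [Nat.ModEq, h1, hp1]
  have e2 : 2 ^ D * 3 ^ j ≡ 1 [MOD p] := by
    rw [Nat.ModEq, h2, hp1]
  obtain ⟨s, rfl⟩ := hi
  set t := y / j with ht
  have hy' : y = y₀ + j * t := by
    rw [← hy, ht]
    exact (Nat.mod_add_div y j).symm
  set F := f₀ + t * D with hF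
  have e3 : 2 ^ (F % o + o * s) ≡ 2 ^ F [MOD p] := by
    have a1 : 2 ^ (F % o + o * s) ≡ 2 ^ (F % o) [MOD p] := by
      rw [pow_add, pow_mul]
      calc 2 ^ (F % o) * (2 ^ o) ^ s ≡ 2 ^ (F % o) * 1 ^ s [MOD p] :=
            Nat.ModEq.mul_left _ (e1.pow s)
        _ = 2 ^ (F % o) := by rw [one_pow, mul_one]
    have a2 : 2 ^ F ≡ 2 ^ (F % o) [MOD p] := by
      calc 2 ^ F = 2 ^ (F % o) * (2 ^ o) ^ (F / o) := by
            rw [← pow_mul, ← pow_add, Nat.mod_add_div]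
        _ ≡ 2 ^ (F % o) * 1 ^ (F / o) [MOD p] := Nat.ModEq.mul_left _ (e1.pow _)
        _ = 2 ^ (F % o) := by rw [one_pow, mul_one]
    exact a1.trans a2.symm
  calc 2 ^ (F % o + o * s) * 3 ^ y ≡ 2 ^ F * 3 ^ y [MOD p] := e3.mul_right _
    _ = 2 ^ f₀ * 3 ^ y₀ * (2 ^ D * 3 ^ j) ^ t := by
        rw [hy', hF, pow_add, pow_add, mul_pow, ← pow_mul, ← pow_mul, mul_comm t D]
        ring
    _ ≡ 2 ^ f₀ * 3 ^ y₀ * 1 ^ t [MOD p] := Nat.ModEq.mul_left _ (e2.pow t)
    _ = 2 ^ f₀ * 3 ^ y₀ := by rw [one_pow, mul_one]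

theorem rowOne_bit {t : Par} (ht : Valid t) {y i : ℕ} (h : (rowOne t y).testBit i = true) :
    2 ^ i * 3 ^ y ≡ 2 ^ t.2.2.2.2.1 * 3 ^ t.2.2.2.1 [MOD t.1] := by
  obtain ⟨_, ho, hd, _, h1, h2⟩ := ht
  unfold rowOne at h
  cases hb : Nat.beq (y % t.2.2.1) t.2.2.2.1 with
  | false => rw [hb, cond_false, Nat.zero_testBit] at h; exact absurd h (by simp)
  | true =>
    rw [hb, cond_true, Nat.testBit_shiftLeft, Bool.and_eq_true, decide_eq_true_eq] at h
    have hy : y % t.2.2.1 = t.2.2.2.1 := Nat.eq_of_beq_eq_true hb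
    obtain ⟨s, hs⟩ := testBit_Bp ho hd h.2
    exact modEq_key h1 h2 hy ⟨s, by omega⟩

theorem row_bit {L : List Par} (hL : ∀ t ∈ L, Valid t) {y i : ℕ}
    (h : (row L y).testBit i = true) :
    ∃ t ∈ L, 2 ^ i * 3 ^ y ≡ 2 ^ t.2.2.2.2.1 * 3 ^ t.2.2.2.1 [MOD t.1] := by
  induction L with
  | nil => rw [row_nil, Nat.zero_testBit] at h; exact absurd h (by simp)
  | cons t L ih =>
    rw [row_cons, Nat.testBit_or, Bool.or_eq_true] at h
    rcases h with h | h
    · exact ⟨t, by simp, rowOne_bit (hL t (by simp)) h⟩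
    · obtain ⟨t', ht', h'⟩ := ih (fun t ht => hL t (by simp [ht])) h
      exact ⟨t', by simp [ht'], h'⟩

theorem alg_bit {l y i : ℕ} (ho : 0 < l) (hd : 5040 % l = 0)
    (h : (cond (Nat.beq (y % l) 0) (Bp l) 0).testBit i = true) : l ∣ y ∧ l ∣ i := by
  cases hb : Nat.beq (y % l) 0 with
  | false => rw [hb, cond_false, Nat.zero_testBit] at h; exact absurd h (by simp)
  | true =>
    rw [hb, cond_true] at h
    exact ⟨Nat.dvd_of_mod_eq_zero (Nat.eq_of_beq_eq_true hb), testBit_Bp ho hd h⟩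

theorem rowAlg_bit {y i : ℕ} (h : (rowAlg y).testBit i = true) :
    ∃ l ∈ [3, 5, 7], l ∣ y ∧ l ∣ i := by
  unfold rowAlg at h
  rw [Nat.testBit_or, Nat.testBit_or, Bool.or_eq_true, Bool.or_eq_true] at h
  rcases h with h | h | h
  · exact ⟨3, by simp, alg_bit (by norm_num) (by norm_num) h⟩
  · exact ⟨5, by simp, alg_bit (by norm_num) (by norm_num) h⟩
  · exact ⟨7, by simp, alg_bit (by norm_num) (by norm_num) h⟩

theorem badM {y i : ℕ} (h : (rowAll LM y).testBit i = true) :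
    (∃ l ∈ [3, 5, 7], l ∣ y ∧ l ∣ i) ∨ ∃ p ∈ P0, (2 ^ i * 3 ^ y) % p = 1 := by
  unfold rowAll at h
  rw [Nat.testBit_or, Bool.or_eq_true] at h
  rcases h with h | h
  · exact Or.inl (rowAlg_bit h)
  · obtain ⟨t, ht, h1⟩ := row_bit (fun t ht => (valid_LM t ht).1) h
    refine Or.inr ⟨t.1, (valid_LM t ht).1.1, ?_⟩
    rw [h1]
    exact (valid_LM t ht).2

theorem badP {y i : ℕ} (h : (rowAll LP y).testBit i = true) :
    (∃ l ∈ [3, 5, 7], l ∣ y ∧ l ∣ i) ∨ ∃ p ∈ P0, (2 ^ i * 3 ^ y + 1) % p = 0 := by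
  unfold rowAll at h
  rw [Nat.testBit_or, Bool.or_eq_true] at h
  rcases h with h | h
  · exact Or.inl (rowAlg_bit h)
  · obtain ⟨t, ht, h1⟩ := row_bit (fun t ht => (valid_LP t ht).1) h
    refine Or.inr ⟨t.1, (valid_LP t ht).1.1, ?_⟩
    rw [h1.add_right 1]
    exact (valid_LP t ht).2

/-! ### The number of bits -/

theorem and_M_mod (m K : ℕ) :
    (m &&& ∑ t ∈ range K, (2 ^ 13) ^ t) ≡ ∑ t ∈ range K, (m.testBit (13 * t)).toNat
      [MOD 8191] := by
  induction K with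
  | zero => simp [Nat.ModEq]
  | succ K ih =>
    rw [Finset.sum_range_succ, ← pow_mul, add_comm]
    have h1 := Nat.two_pow_add_eq_or_of_lt (geom_lt 13 K (by norm_num)) 1
    rw [mul_one] at h1
    rw [h1, Nat.and_or_distrib_left]
    have h2 : (m &&& 2 ^ (13 * K)) = (m.testBit (13 * K)).toNat * 2 ^ (13 * K) := by
      rw [Nat.and_two_pow]
    have h3 : (m &&& ∑ t ∈ range K, (2 ^ 13) ^ t) < 2 ^ (13 * K) :=
      lt_of_le_of_lt Nat.and_le_right (geom_lt 13 K (by norm_num))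
    have h4 : (m &&& 2 ^ (13 * K) ||| m &&& ∑ t ∈ range K, (2 ^ 13) ^ t) =
        (m.testBit (13 * K)).toNat * 2 ^ (13 * K) + (m &&& ∑ t ∈ range K, (2 ^ 13) ^ t) := by
      rw [h2, mul_comm, Nat.two_pow_add_eq_or_of_lt h3]
    rw [h4, Finset.sum_range_succ, add_comm]
    refine Nat.ModEq.add ih ?_
    have h5 : 2 ^ (13 * K) ≡ 1 [MOD 8191] := by
      rw [pow_mul]
      have : (2 : ℕ) ^ 13 ≡ 1 [MOD 8191] := by decide
      simpa using this.pow K
    calc (m.testBit (13 * K)).toNat * 2 ^ (13 * K) ≡ (m.testBit (13 * K)).toNat * 1 [MOD 8191] :=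
          Nat.ModEq.mul_left _ h5
      _ = _ := by rw [mul_one]

theorem M13_eq : M13 = ∑ t ∈ range 388, (2 ^ 13) ^ t := by
  have h : (13 : ℕ) * 388 = 5044 := by norm_num
  rw [Nat.geomSum_eq (by norm_num), ← pow_mul, h]
  rfl

theorem pc_le (n : ℕ) (hn : n < 2 ^ 5040) :
    pc n ≤ ((range 5040).filter fun i => n.testBit i = true).card := by
  have h1 : SS (fun j => (n >>> j) &&& M13) 13 ≡
      ∑ i ∈ range 5044, (n.testBit i).toNat [MOD 8191] := by
    rw [SS_eq, show (5044 : ℕ) = 13 * 388 by norm_num, sum_blocks _ 13 388, Finset.sum_comm]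
    have h2 : ∀ s : Finset ℕ, (∑ j ∈ s, ((n >>> j) &&& M13)) ≡
        ∑ j ∈ s, ∑ t ∈ range 388, (n.testBit (13 * t + j)).toNat [MOD 8191] := by
      intro s
      induction s using Finset.induction_on with
      | empty => simp [Nat.ModEq]
      | insert a s ha ih =>
        rw [Finset.sum_insert ha, Finset.sum_insert ha]
        refine Nat.ModEq.add ?_ ih
        rw [M13_eq]
        refine (and_M_mod (n >>> a) 388).trans ?_
        have : ∀ t, (n >>> a).testBit (13 * t) = n.testBit (13 * t + a) := fun t => by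
          rw [Nat.testBit_shiftRight, add_comm]
        simp only [this]
        exact Nat.ModEq.refl _
    exact h2 _
  have h3 : ∑ i ∈ range 5044, (n.testBit i).toNat =
      ((range 5040).filter fun i => n.testBit i = true).card := by
    rw [Finset.card_filter, show (5044 : ℕ) = 5040 + 4 by norm_num, Finset.sum_range_add]
    have h4 : ∑ x ∈ range 4, (n.testBit (5040 + x)).toNat = 0 := by
      refine Finset.sum_eq_zero fun x _ => ?_
      rw [Nat.testBit_lt_two_pow (hn.trans_le (Nat.pow_le_pow_right (by norm_num) (by omega)))]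
      rfl
    rw [h4, add_zero]
    refine Finset.sum_congr rfl fun i _ => ?_
    cases n.testBit i <;> simp
  unfold pc
  rw [h1, h3]
  exact Nat.mod_le _ _

/-- counting one line -/
theorem line_le (L : List Par) (y : ℕ) (G : ℕ → Prop) [DecidablePred G]
    (hG : ∀ u, G u → (rowAll L y).testBit u = false ∧ (rowAll L y).testBit (u + 1) = false) :
    ((range 5040).filter G).card ≤ cc L y := by
  unfold cc
  set m := (rowAll L y ||| (rowAll L y >>> 1)) % 2 ^ 5040 with hm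
  have h1 := pc_le m (Nat.mod_lt _ (by positivity))
  have h2 : ((range 5040).filter G) ⊆ (range 5040).filter fun i => ¬ m.testBit i = true := by
    intro u hu
    rw [Finset.mem_filter] at hu ⊢
    refine ⟨hu.1, ?_⟩
    rw [hm, Nat.testBit_mod_two_pow, Nat.testBit_or, Nat.testBit_shiftRight, (hG u hu.2).1,
      add_comm 1 u, (hG u hu.2).2]
    simp
  have h3 := Finset.card_filter_add_card_filter_not (s := range 5040)
    (fun i => m.testBit i = true)
  rw [Finset.card_range] at h3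
  have h4 := Finset.card_le_card h2
  omega

open scoped Classical in
theorem count_le : ((Finset.range 5040 ×ˢ Finset.range 5040).filter
      (fun z => GoodP z.1 z.2)).card +
    ((Finset.range 5040 ×ˢ Finset.range 5040).filter (fun z => GoodM z.1 z.2)).card ≤
      3719586 := by
  have hP : ((Finset.range 5040 ×ˢ Finset.range 5040).filter
      (fun z => GoodP z.1 z.2)).card ≤ 1879404 := by
    rw [← sumP_eq, SS_blocks (cc LP), Finset.card_filter, Finset.sum_product_right]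
    refine Finset.sum_le_sum fun y _ => ?_
    rw [← Finset.card_filter]
    refine line_le LP y (fun u => GoodP u y) fun u hu => ?_
    refine ⟨?_, ?_⟩
    · by_contra hc
      rcases badP (Bool.eq_true_of_not_eq_false hc) with ⟨l, hl, h1, h2⟩ | ⟨p, hp, h1⟩
      · exact hu.1 l hl ⟨h1, Or.inl h2⟩
      · exact (hu.2 p hp).1 h1
    · by_contra hc
      rcases badP (Bool.eq_true_of_not_eq_false hc) with ⟨l, hl, h1, h2⟩ | ⟨p, hp, h1⟩
      · exact hu.1 l hl ⟨h1, Or.inr h2⟩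
      · exact (hu.2 p hp).2 h1
  have hM : ((Finset.range 5040 ×ˢ Finset.range 5040).filter
      (fun z => GoodM z.1 z.2)).card ≤ 1840182 := by
    rw [← sumM_eq, SS_blocks (fun y => cond (Nat.beq (y % 2) 1) (cc LM y) 0),
      Finset.card_filter, Finset.sum_product_right]
    refine Finset.sum_le_sum fun y _ => ?_
    rw [← Finset.card_filter]
    cases hb : Nat.beq (y % 2) 1 with
    | false =>
      rw [cond_false, Nat.le_zero, Finset.card_eq_zero, Finset.filter_eq_empty_iff]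
      intro u _ hu
      have h1 : Nat.beq (y % 2) 1 = true := by rw [hu.1]; rfl
      rw [hb] at h1
      exact absurd h1 (by simp)
    | true =>
      rw [cond_true]
      refine line_le LM y (fun u => GoodM u y) fun u hu => ?_
      refine ⟨?_, ?_⟩
      · by_contra hc
        rcases badM (Bool.eq_true_of_not_eq_false hc) with ⟨l, hl, h1, h2⟩ | ⟨p, hp, h1⟩
        · exact hu.2.1 l hl ⟨h1, Or.inl h2⟩
        · exact (hu.2.2 p hp).1 h1
      · by_contra hc
        rcases badM (Bool.eq_true_of_not_eq_false hc) with ⟨l, hl, h1, h2⟩ | ⟨p, hp, h1⟩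
        · exact hu.2.1 l hl ⟨h1, Or.inr h2⟩
        · exact (hu.2.2 p hp).2 h1
  omega

end Pool.Agent.KFour
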