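import Mathlib

/-!
# Simple groups `A_1 (q)` with four prime divisors: definitions
-/

set_option autoImplicit false

namespace Pool.Agent.KFour

/-- `q` is a prime power and `q (q ^ 2 - 1) = (2, q - 1) 2 ^ a₁ 3 ^ a₂ p ^ a r ^ b` with positive
exponents and distinct primes `p, r` other than `2, 3` -/
def Sol (q : ℕ) : Prop :=
  IsPrimePow q ∧
    ∃ a₁ a₂ p a r b : ℕ, 0 < a₁ ∧ 0 < a₂ ∧ 0 < a ∧ 0 < b ∧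
      p.Prime ∧ r.Prime ∧ p ≠ 2 ∧ p ≠ 3 ∧ r ≠ 2 ∧ r ≠ 3 ∧ p ≠ r ∧
      q * (q ^ 2 - 1) = Nat.gcd 2 (q - 1) * (2 ^ a₁ * 3 ^ a₂ * p ^ a * r ^ b)

/-- the sieving primes: all primes `p > 3` with `2 ^ 5040 = 3 ^ 5040 = 1` modulo `p` -/
def P0 : List ℕ := [5, 7, 11, 13, 17, 19, 29, 31, 37, 41, 43, 61, 71, 73, 97, 113, 127, 181, 211,
  241, 281, 337, 421, 577, 631, 673, 1009, 2017, 2521, 3361, 13441]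

/-- no sieving prime and no algebraic factor excludes `2 ^ u * 3 ^ y + 1`,
`2 ^ (u + 1) * 3 ^ y + 1` -/
def GoodP (u y : ℕ) : Prop :=
  (∀ l ∈ [3, 5, 7], ¬ (l ∣ y ∧ (l ∣ u ∨ l ∣ u + 1))) ∧
    ∀ p ∈ P0, (2 ^ u * 3 ^ y + 1) % p ≠ 0 ∧ (2 ^ (u + 1) * 3 ^ y + 1) % p ≠ 0

/-- the same for `2 ^ u * 3 ^ y - 1`, `2 ^ (u + 1) * 3 ^ y - 1` -/
def GoodM (u y : ℕ) : Prop :=
  y % 2 = 1 ∧ (∀ l ∈ [3, 5, 7], ¬ (l ∣ y ∧ (l ∣ u ∨ l ∣ u + 1))) ∧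
    ∀ p ∈ P0, (2 ^ u * 3 ^ y) % p ≠ 1 ∧ (2 ^ (u + 1) * 3 ^ y) % p ≠ 1

end Pool.Agent.KFour
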