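import Pool.Agent.Work.MP_d4c219_nt.Red
import Pool.Agent.Work.MP_d4c219_nt.Count

/-!
# Simple groups `A_1 (q)` with four prime divisors: lattice points and the bound
-/

set_option autoImplicit false

namespace Pool.Agent.KFour

open Finset
open scoped Classical

theorem sum_line (a b M : ℝ) (ha : a ≠ 0) (n : ℕ) :
    ∑ v ∈ range n, ((M - b * v) / a + 1) = n * (M + a - b * (n - 1) / 2) / a := by
  induction n with
  | zero => simp
  | succ n ih =>
    rw [sum_range_succ, ih]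
    push_cast
    field_simp
    ring

/-- lattice points in a triangle -/
theorem lat_tri {a b M : ℝ} (ha : 0 < a) (hb : 0 < b) (hM : 0 ≤ M) (T : Finset (ℕ × ℕ))
    (hT : ∀ z ∈ T, a * z.1 + b * z.2 ≤ M) : (T.card : ℝ) ≤ (M + a + b) ^ 2 / (2 * a * b) := by
  set V : ℕ := ⌊M / b⌋₊ with hV
  have hmaps : ∀ z ∈ T, z.2 ∈ range (V + 1) := by
    intro z hz
    have h1 := hT z hz
    have h2 : 0 ≤ a * (z.1 : ℝ) := by positivity
    rw [mem_range, Nat.lt_succ_iff, hV]
    apply Nat.le_floor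
    rw [le_div_iff₀ hb]
    linarith
  have h1 : T.card = ∑ v ∈ range (V + 1), (T.filter (fun z => z.2 = v)).card :=
    card_eq_sum_card_fiberwise hmaps
  have h2 : ∀ v ∈ range (V + 1), ((T.filter (fun z => z.2 = v)).card : ℝ) ≤
      (M - b * v) / a + 1 := by
    intro v hv
    have hv' : (v : ℝ) ≤ M / b := by
      have := Nat.floor_le (div_nonneg hM hb.le)
      have h3 : (v : ℝ) ≤ V := by
        exact_mod_cast Nat.lt_succ_iff.1 (mem_range.1 hv)
      exact h3.trans this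
    have hnn : 0 ≤ (M - b * v) / a := by
      apply div_nonneg _ ha.le
      rw [le_div_iff₀ hb] at hv'
      linarith
    have h3 : (T.filter (fun z => z.2 = v)).card ≤ (range (⌊(M - b * v) / a⌋₊ + 1)).card := by
      apply card_le_card_of_injOn (fun z => z.1)
      · intro z hz
        have hz' := mem_filter.1 (mem_coe.1 hz)
        have h4 := hT z hz'.1
        rw [hz'.2] at h4
        rw [mem_coe, mem_range, Nat.lt_succ_iff]
        apply Nat.le_floor
        rw [le_div_iff₀ ha]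
        linarith
      · intro z hz z' hz' h
        have e1 := (mem_filter.1 (mem_coe.1 hz)).2
        have e2 := (mem_filter.1 (mem_coe.1 hz')).2
        exact Prod.ext h (e1.trans e2.symm)
    rw [card_range] at h3
    have h4 := Nat.floor_le hnn
    have h5 : ((T.filter (fun z => z.2 = v)).card : ℝ) ≤ (⌊(M - b * v) / a⌋₊ : ℝ) + 1 := by
      exact_mod_cast h3
    linarith
  have h3 : (T.card : ℝ) ≤ (V + 1 : ℕ) * (M + a - b * ((V + 1 : ℕ) - 1) / 2) / a := by
    rw [← sum_line a b M ha.ne' (V + 1), h1]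
    push_cast
    exact sum_le_sum h2
  refine h3.trans ?_
  rw [div_le_div_iff₀ ha (by positivity)]
  set n : ℝ := ((V + 1 : ℕ) : ℝ) with hn
  have key : 2 * b * n * (M + a - b * (n - 1) / 2) ≤ (M + a + b) ^ 2 := by
    nlinarith [sq_nonneg (M + a + b / 2 - b * n), mul_nonneg hM hb.le, mul_pos ha hb, mul_pos hb hb]
  have := mul_le_mul_of_nonneg_left key ha.le
  nlinarith

/-- lattice points of a periodic set in a triangle -/
theorem lat_per {a b R : ℝ} (ha : 0 < a) (hb : 0 < b) (hR : 0 ≤ R) {L : ℕ} (hL : 0 < L)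
    (G : ℕ → ℕ → Prop) (hG : ∀ u y, G u y → G (u % L) (y % L)) (T : Finset (ℕ × ℕ))
    (hT : ∀ z ∈ T, G z.1 z.2 ∧ a * z.1 + b * z.2 ≤ R) :
    (T.card : ℝ) ≤ (((range L ×ˢ range L).filter (fun z => G z.1 z.2)).card : ℝ) *
      ((R / L + a + b) ^ 2 / (2 * a * b)) := by
  have hL0 : (0 : ℝ) < L := by exact_mod_cast hL
  set S := (range L ×ˢ range L).filter (fun z : ℕ × ℕ => G z.1 z.2) with hS
  have hmaps : ∀ z ∈ T, (z.1 % L, z.2 % L) ∈ S := by
    intro z hz
    rw [hS, mem_filter, mem_product, mem_range, mem_range]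
    exact ⟨⟨Nat.mod_lt _ hL, Nat.mod_lt _ hL⟩, hG _ _ (hT z hz).1⟩
  have h1 : T.card = ∑ s ∈ S, (T.filter (fun z => (z.1 % L, z.2 % L) = s)).card :=
    card_eq_sum_card_fiberwise hmaps
  have h2 : ∀ s ∈ S, ((T.filter (fun z => (z.1 % L, z.2 % L) = s)).card : ℝ) ≤
      (R / L + a + b) ^ 2 / (2 * a * b) := by
    intro s _
    set T' := T.filter (fun z => (z.1 % L, z.2 % L) = s) with hT'
    have hinj : Set.InjOn (fun z : ℕ × ℕ => (z.1 / L, z.2 / L)) (T' : Set (ℕ × ℕ)) := by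
      intro z hz z' hz' h
      have e1 := (mem_filter.1 (mem_coe.1 hz)).2
      have e2 := (mem_filter.1 (mem_coe.1 hz')).2
      have e3 := e1.trans e2.symm
      simp only [Prod.mk.injEq] at e3 h
      have d1 := Nat.div_add_mod z.1 L
      have d2 := Nat.div_add_mod z'.1 L
      have d3 := Nat.div_add_mod z.2 L
      have d4 := Nat.div_add_mod z'.2 L
      apply Prod.ext
      · rw [← d1, ← d2, h.1, e3.1]
      · rw [← d3, ← d4, h.2, e3.2]
    rw [← card_image_of_injOn hinj]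
    apply lat_tri ha hb (by positivity)
    intro w hw
    obtain ⟨z, hz, rfl⟩ := mem_image.1 hw
    have h3 := (hT z (mem_filter.1 hz).1).2
    have h4 : ((z.1 / L : ℕ) : ℝ) ≤ (z.1 : ℝ) / L := Nat.cast_div_le
    have h5 : ((z.2 / L : ℕ) : ℝ) ≤ (z.2 : ℝ) / L := Nat.cast_div_le
    rw [le_div_iff₀ hL0] at h4 h5 ⊢
    change (a * ((z.1 / L : ℕ) : ℝ) + b * ((z.2 / L : ℕ) : ℝ)) * L ≤ R
    have h6 := mul_le_mul_of_nonneg_left h4 ha.le
    have h7 := mul_le_mul_of_nonneg_left h5 hb.le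
    linarith
  rw [h1]
  push_cast
  calc ∑ s ∈ S, ((T.filter (fun z => (z.1 % L, z.2 % L) = s)).card : ℝ)
      ≤ ∑ _s ∈ S, (R / L + a + b) ^ 2 / (2 * a * b) := sum_le_sum h2
    _ = _ := by rw [sum_const, nsmul_eq_mul]

/-! ### periodicity -/

theorem P0_pow : ∀ p ∈ P0, 2 ^ 5040 % p = 1 ∧ 3 ^ 5040 % p = 1 := by
  unfold P0
  decide +kernel

theorem pow_per {c p : ℕ} (hp : 1 < p) (h : c ^ 5040 % p = 1) (u : ℕ) :
    c ^ u ≡ c ^ (u % 5040) [MOD p] := by
  have h1 : c ^ 5040 ≡ 1 [MOD p] := by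
    rw [Nat.ModEq, h, Nat.mod_eq_of_lt hp]
  have h2 : c ^ u = (c ^ 5040) ^ (u / 5040) * c ^ (u % 5040) := by
    rw [← pow_mul, ← pow_add, Nat.div_add_mod]
  rw [h2]
  have h3 := (h1.pow (u / 5040)).mul_right (c ^ (u % 5040))
  rwa [one_pow, one_mul] at h3

theorem val_per {p : ℕ} (hp : p ∈ P0) (u y : ℕ) :
    2 ^ u * 3 ^ y ≡ 2 ^ (u % 5040) * 3 ^ (y % 5040) [MOD p] ∧
      2 ^ (u + 1) * 3 ^ y ≡ 2 ^ (u % 5040 + 1) * 3 ^ (y % 5040) [MOD p] := by
  have hp1 := (P0_prime p hp).one_lt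
  obtain ⟨h2, h3⟩ := P0_pow p hp
  have e2 := pow_per hp1 h2 u
  have e3 := pow_per hp1 h3 y
  refine ⟨e2.mul e3, ?_⟩
  rw [pow_succ, pow_succ]
  exact (e2.mul_right 2).mul e3

theorem alg_per {u y : ℕ} (h : ∀ l ∈ [3, 5, 7], ¬ (l ∣ y ∧ (l ∣ u ∨ l ∣ u + 1))) :
    ∀ l ∈ [3, 5, 7], ¬ (l ∣ y % 5040 ∧ (l ∣ u % 5040 ∨ l ∣ u % 5040 + 1)) := by
  intro l hl hc
  refine h l hl ?_
  have hl' : l = 3 ∨ l = 5 ∨ l = 7 := by simpa using hl
  rcases hl' with rfl | rfl | rfl <;> omega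

theorem goodP_per (u y : ℕ) (h : GoodP u y) : GoodP (u % 5040) (y % 5040) := by
  refine ⟨alg_per h.1, fun p hp => ?_⟩
  obtain ⟨e1, e2⟩ := val_per hp u y
  obtain ⟨h1, h2⟩ := h.2 p hp
  have f1 := e1.add_right 1
  have f2 := e2.add_right 1
  rw [Nat.ModEq] at f1 f2
  exact ⟨fun hc => h1 (f1.trans hc), fun hc => h2 (f2.trans hc)⟩

theorem goodM_per (u y : ℕ) (h : GoodM u y) : GoodM (u % 5040) (y % 5040) := by
  refine ⟨?_, alg_per h.2.1, fun p hp => ?_⟩
  · have := h.1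
    omega
  · obtain ⟨e1, e2⟩ := val_per hp u y
    obtain ⟨h1, h2⟩ := h.2.2 p hp
    rw [Nat.ModEq] at e1 e2
    exact ⟨fun hc => h1 (e1.trans hc), fun hc => h2 (e2.trans hc)⟩

/-! ### counting the solutions up to `N` -/

/-- the five shapes of exceptional numbers -/
def shape (z : ℕ) (j : ℕ) : ℕ :=
  match j with
  | 0 => z
  | 1 => z + 1
  | 2 => z - 1
  | 3 => 2 * z + 1
  | _ => 2 * z - 1

theorem exc_card (N : ℕ) :
    ((range (N + 1)).filter (fun q => Exc q)).card ≤ 165 * (Nat.log 2 (N + 1) + 1) := by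
  have hsub : (range (N + 1)).filter (fun q => Exc q) ⊆
      ((S1.toFinset ×ˢ range (Nat.log 2 (N + 1) + 1)) ×ˢ range 5).image
        (fun z => shape (z.1.1 ^ z.1.2) z.2) := by
    intro q hq
    obtain ⟨hqN, s, hs, k, hk⟩ := mem_filter.1 hq
    rw [mem_range] at hqN
    have hs2 := S1_two_le s hs
    have hle : s ^ k ≤ N + 1 := by
      rcases hk with h | h | h | h | h <;> omega
    have hk' : k ≤ Nat.log 2 (N + 1) := by
      apply Nat.le_log_of_pow_le (by norm_num)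
      exact (Nat.pow_le_pow_left hs2 k).trans hle
    rw [mem_image]
    have hmem : ∀ j, j < 5 → ((s, k), j) ∈
        (S1.toFinset ×ˢ range (Nat.log 2 (N + 1) + 1)) ×ˢ range 5 := by
      intro j hj
      rw [mem_product, mem_product]
      exact ⟨⟨List.mem_toFinset.2 hs, mem_range.2 (Nat.lt_succ_iff.2 hk')⟩, mem_range.2 hj⟩
    rcases hk with h | h | h | h | h
    · exact ⟨((s, k), 0), hmem 0 (by norm_num), h.symm⟩
    · exact ⟨((s, k), 1), hmem 1 (by norm_num), h.symm⟩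
    · refine ⟨((s, k), 2), hmem 2 (by norm_num), ?_⟩
      change s ^ k - 1 = q
      omega
    · exact ⟨((s, k), 3), hmem 3 (by norm_num), h.symm⟩
    · refine ⟨((s, k), 4), hmem 4 (by norm_num), ?_⟩
      change 2 * s ^ k - 1 = q
      omega
  refine (card_le_card hsub).trans (card_image_le.trans ?_)
  rw [card_product, card_product, card_range, card_range]
  have h33 : S1.toFinset.card ≤ 33 := (List.toFinset_card_le S1).trans (by decide)
  calc S1.toFinset.card * (Nat.log 2 (N + 1) + 1) * 5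
      ≤ 33 * (Nat.log 2 (N + 1) + 1) * 5 := by gcongr
    _ = _ := by ring

theorem log_le_of {N u y : ℕ} (h : 2 ^ (u + 1) * 3 ^ y ≤ N + 1) :
    Real.log 2 * u + Real.log 3 * y ≤ Real.log (N + 1) := by
  have h1 : (2 : ℝ) ^ u * 3 ^ y ≤ N + 1 := by
    have h2 : 2 ^ u * 3 ^ y ≤ N + 1 := by
      refine le_trans ?_ h
      exact Nat.mul_le_mul_right _ (Nat.pow_le_pow_right (by norm_num) (Nat.le_succ u))
    exact_mod_cast h2
  have h3 : Real.log ((2 : ℝ) ^ u * 3 ^ y) = Real.log 2 * u + Real.log 3 * y := by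
    rw [Real.log_mul (by positivity) (by positivity), Real.log_pow, Real.log_pow]
    ring
  rw [← h3]
  exact Real.log_le_log (by positivity) h1

theorem exp_le_log {N u y : ℕ} (h : 2 ^ (u + 1) * 3 ^ y ≤ N + 1) :
    u ≤ Nat.log 2 (N + 1) ∧ y ≤ Nat.log 2 (N + 1) := by
  constructor
  · apply Nat.le_log_of_pow_le (by norm_num)
    refine le_trans ?_ h
    calc 2 ^ u = 2 ^ u * 1 := (mul_one _).symm
      _ ≤ 2 ^ (u + 1) * 3 ^ y := Nat.mul_le_mul (Nat.pow_le_pow_right (by norm_num) (Nat.le_succ u))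
        (Nat.one_le_pow _ _ (by norm_num))
  · apply Nat.le_log_of_pow_le (by norm_num)
    refine le_trans ?_ h
    calc 2 ^ y ≤ 3 ^ y := Nat.pow_le_pow_left (by norm_num) y
      _ = 1 * 3 ^ y := (one_mul _).symm
      _ ≤ 2 ^ (u + 1) * 3 ^ y := Nat.mul_le_mul_right _ Nat.one_le_two_pow

theorem goodP_card (N : ℕ) :
    (((range (N + 1)).filter (fun q => ∃ u y, GoodP u y ∧ q = 2 ^ (u + 1) * 3 ^ y + 1)).card : ℝ) ≤
      (((range 5040 ×ˢ range 5040).filter (fun z => GoodP z.1 z.2)).card : ℝ) *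
      ((Real.log (N + 1) / 5040 + Real.log 2 + Real.log 3) ^ 2 / (2 * Real.log 2 * Real.log 3)) := by
  set n := Nat.log 2 (N + 1) with hn
  set T := (range (n + 1) ×ˢ range (n + 1)).filter
    (fun z : ℕ × ℕ => GoodP z.1 z.2 ∧ 2 ^ (z.1 + 1) * 3 ^ z.2 ≤ N + 1) with hT
  have hsub : (range (N + 1)).filter (fun q => ∃ u y, GoodP u y ∧ q = 2 ^ (u + 1) * 3 ^ y + 1) ⊆
      T.image (fun z => 2 ^ (z.1 + 1) * 3 ^ z.2 + 1) := by
    intro q hq
    obtain ⟨hqN, u, y, hG, rfl⟩ := mem_filter.1 hq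
    rw [mem_range] at hqN
    have hle : 2 ^ (u + 1) * 3 ^ y ≤ N + 1 := by omega
    obtain ⟨h1, h2⟩ := exp_le_log hle
    rw [mem_image]
    refine ⟨(u, y), ?_, rfl⟩
    rw [hT, mem_filter, mem_product, mem_range, mem_range]
    exact ⟨⟨Nat.lt_succ_iff.2 h1, Nat.lt_succ_iff.2 h2⟩, hG, hle⟩
  have h1 := (card_le_card hsub).trans card_image_le
  have h2 := lat_per (a := Real.log 2) (b := Real.log 3) (R := Real.log (N + 1))
    (Real.log_pos (by norm_num)) (Real.log_pos (by norm_num))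
    (Real.log_nonneg (by linarith [Nat.cast_nonneg (α := ℝ) N])) (L := 5040) (by norm_num)
    GoodP goodP_per T (fun z hz => ⟨(mem_filter.1 hz).2.1, log_le_of (mem_filter.1 hz).2.2⟩)
  rw [Nat.cast_ofNat] at h2
  refine le_trans ?_ h2
  exact_mod_cast h1

theorem goodM_card (N : ℕ) :
    (((range (N + 1)).filter (fun q => ∃ u y, GoodM u y ∧ q + 1 = 2 ^ (u + 1) * 3 ^ y)).card : ℝ) ≤
      (((range 5040 ×ˢ range 5040).filter (fun z => GoodM z.1 z.2)).card : ℝ) *
      ((Real.log (N + 1) / 5040 + Real.log 2 + Real.log 3) ^ 2 / (2 * Real.log 2 * Real.log 3)) := by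
  set n := Nat.log 2 (N + 1) with hn
  set T := (range (n + 1) ×ˢ range (n + 1)).filter
    (fun z : ℕ × ℕ => GoodM z.1 z.2 ∧ 2 ^ (z.1 + 1) * 3 ^ z.2 ≤ N + 1) with hT
  have hsub : (range (N + 1)).filter (fun q => ∃ u y, GoodM u y ∧ q + 1 = 2 ^ (u + 1) * 3 ^ y) ⊆
      T.image (fun z => 2 ^ (z.1 + 1) * 3 ^ z.2 - 1) := by
    intro q hq
    obtain ⟨hqN, u, y, hG, hqe⟩ := mem_filter.1 hq
    rw [mem_range] at hqN
    have hle : 2 ^ (u + 1) * 3 ^ y ≤ N + 1 := by omega
    obtain ⟨h1, h2⟩ := exp_le_log hle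
    rw [mem_image]
    refine ⟨(u, y), ?_, ?_⟩
    · rw [hT, mem_filter, mem_product, mem_range, mem_range]
      exact ⟨⟨Nat.lt_succ_iff.2 h1, Nat.lt_succ_iff.2 h2⟩, hG, hle⟩
    · change 2 ^ (u + 1) * 3 ^ y - 1 = q
      omega
  have h1 := (card_le_card hsub).trans card_image_le
  have h2 := lat_per (a := Real.log 2) (b := Real.log 3) (R := Real.log (N + 1))
    (Real.log_pos (by norm_num)) (Real.log_pos (by norm_num))
    (Real.log_nonneg (by linarith [Nat.cast_nonneg (α := ℝ) N])) (L := 5040) (by norm_num)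
    GoodM goodM_per T (fun z hz => ⟨(mem_filter.1 hz).2.1, log_le_of (mem_filter.1 hz).2.2⟩)
  rw [Nat.cast_ofNat] at h2
  refine le_trans ?_ h2
  exact_mod_cast h1

theorem sol_card (N : ℕ) :
    (((range (N + 1)).filter (fun q => Sol q)).card : ℝ) ≤
      165 * (Real.log (N + 1) / Real.log 2 + 1) + 3719586 *
      ((Real.log (N + 1) / 5040 + Real.log 2 + Real.log 3) ^ 2 / (2 * Real.log 2 * Real.log 3)) := by
  have hsub : (range (N + 1)).filter (fun q => Sol q) ⊆
      (range (N + 1)).filter (fun q => Exc q) ∪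
        ((range (N + 1)).filter (fun q => ∃ u y, GoodP u y ∧ q = 2 ^ (u + 1) * 3 ^ y + 1) ∪
        (range (N + 1)).filter (fun q => ∃ u y, GoodM u y ∧ q + 1 = 2 ^ (u + 1) * 3 ^ y)) := by
    intro q hq
    obtain ⟨hqN, hs⟩ := mem_filter.1 hq
    rw [mem_union, mem_union, mem_filter, mem_filter, mem_filter]
    rcases sol_cases hs with h | h | h
    · exact Or.inl ⟨hqN, h⟩
    · exact Or.inr (Or.inl ⟨hqN, h⟩)
    · exact Or.inr (Or.inr ⟨hqN, h⟩)
  have h1 := (card_le_card hsub).trans ((card_union_le _ _).trans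
    (Nat.add_le_add_left (card_union_le _ _) _))
  have h2 : (((range (N + 1)).filter (fun q => Sol q)).card : ℝ) ≤
      (((range (N + 1)).filter (fun q => Exc q)).card : ℝ) +
      ((((range (N + 1)).filter (fun q => ∃ u y, GoodP u y ∧
        q = 2 ^ (u + 1) * 3 ^ y + 1)).card : ℝ) +
      (((range (N + 1)).filter (fun q => ∃ u y, GoodM u y ∧
        q + 1 = 2 ^ (u + 1) * 3 ^ y)).card : ℝ)) := by
    exact_mod_cast h1
  have h3 := goodP_card N
  have h4 := goodM_card N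
  have h5 : (((range (N + 1)).filter (fun q => Exc q)).card : ℝ) ≤
      165 * (Real.log (N + 1) / Real.log 2 + 1) := by
    have h6 : (((range (N + 1)).filter (fun q => Exc q)).card : ℝ) ≤
        165 * ((Nat.log 2 (N + 1) : ℕ) + 1) := by
      exact_mod_cast exc_card N
    have h7 : ((Nat.log 2 (N + 1) : ℕ) : ℝ) ≤ Real.log (N + 1) / Real.log 2 := by
      rw [le_div_iff₀ (Real.log_pos (by norm_num)), ← Real.log_pow]
      apply Real.log_le_log (by positivity)
      exact_mod_cast Nat.pow_log_le_self 2 (Nat.succ_ne_zero N)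
    linarith
  have h6 : ((((range 5040 ×ˢ range 5040).filter (fun z => GoodP z.1 z.2)).card : ℝ)) +
      (((range 5040 ×ˢ range 5040).filter (fun z => GoodM z.1 z.2)).card : ℝ) ≤ 3719586 := by
    exact_mod_cast count_le
  have h7 : 0 ≤ (Real.log (N + 1) / 5040 + Real.log 2 + Real.log 3) ^ 2 /
      (2 * Real.log 2 * Real.log 3) := by
    have := Real.log_pos (show (1 : ℝ) < 2 by norm_num)
    have := Real.log_pos (show (1 : ℝ) < 3 by norm_num)
    positivity
  have h8 := mul_le_mul_of_nonneg_right h6 h7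
  linarith

theorem log_three : 1.097 ≤ Real.log 3 ∧ Real.log 3 ≤ 1.16 := by
  have h1 := Real.log_two_gt_d9
  have h2 := Real.log_two_lt_d9
  constructor
  · have h3 : Real.log ((2 : ℝ) ^ 19) ≤ Real.log ((3 : ℝ) ^ 12) :=
      Real.log_le_log (by positivity) (by norm_num)
    rw [Real.log_pow, Real.log_pow] at h3
    push_cast at h3
    linarith
  · have h3 : Real.log ((3 : ℝ) ^ 12) ≤ Real.log ((2 : ℝ) ^ 20) :=
      Real.log_le_log (by positivity) (by norm_num)
    rw [Real.log_pow, Real.log_pow] at h3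
    push_cast at h3
    linarith

/-- the final inequality -/
theorem final_ineq {R t : ℝ} (ht : 10 ^ 6 ≤ t) (hR0 : 0 ≤ R) (hR : R ≤ t + 1) :
    165 * (R / Real.log 2 + 1) + 3719586 *
      ((R / 5040 + Real.log 2 + Real.log 3) ^ 2 / (2 * Real.log 2 * Real.log 3)) ≤
      t ^ 2 / 10 := by
  have a1 := Real.log_two_gt_d9
  have a2 := Real.log_two_lt_d9
  obtain ⟨b1, b2⟩ := log_three
  have hden : 1.5207 ≤ 2 * Real.log 2 * Real.log 3 := by nlinarith
  have h1 : R / 5040 + Real.log 2 + Real.log 3 ≤ 1.0094 * t / 5040 := by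
    rw [← sub_nonneg]
    norm_num at ht a2 b2 ⊢
    linarith
  have h0 : 0 ≤ R / 5040 + Real.log 2 + Real.log 3 := by
    have : 0 ≤ R / 5040 := by positivity
    linarith
  have h2 : (R / 5040 + Real.log 2 + Real.log 3) ^ 2 ≤ (1.0094 * t / 5040) ^ 2 :=
    pow_le_pow_left₀ h0 h1 2
  have h3 : (R / 5040 + Real.log 2 + Real.log 3) ^ 2 / (2 * Real.log 2 * Real.log 3) ≤
      (1.0094 * t / 5040) ^ 2 / 1.5207 := by
    exact div_le_div₀ (by positivity) h2 (by norm_num) hden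
  have h4 : R / Real.log 2 ≤ 2 * t := by
    rw [div_le_iff₀ (by linarith)]
    nlinarith
  have h5 : 3719586 * ((1.0094 * t / 5040) ^ 2 / 1.5207) ≤ 0.0985 * t ^ 2 := by
    have e : 3719586 * ((1.0094 * t / 5040) ^ 2 / 1.5207) =
        (3719586 * 1.0094 ^ 2 / 5040 ^ 2 / 1.5207) * t ^ 2 := by ring
    rw [e]
    exact mul_le_mul_of_nonneg_right (by norm_num) (sq_nonneg t)
  nlinarith

/-- **Main bound.** -/
theorem main_bound (X : ℝ) (hX : Real.exp (10 ^ 6) ≤ X) :
    ({q : ℕ | (q : ℝ) ≤ X ∧ Sol q}.ncard : ℝ) ≤ (Real.log X) ^ 2 / 10 := by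
  have hX0 : 0 < X := (Real.exp_pos _).trans_le hX
  have hX1 : 1 ≤ X := le_trans (by rw [← Real.exp_zero]; exact Real.exp_le_exp.2 (by norm_num)) hX
  have ht : 10 ^ 6 ≤ Real.log X := by
    rw [Real.le_log_iff_exp_le hX0]
    exact hX
  set N := ⌊X⌋₊ with hN
  have hset : {q : ℕ | (q : ℝ) ≤ X ∧ Sol q} = ((range (N + 1)).filter (fun q => Sol q) : Finset ℕ) := by
    ext q
    rw [Set.mem_ofPred_eq, mem_coe, mem_filter, mem_range, Nat.lt_succ_iff, hN,
      Nat.le_floor_iff hX0.le]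
  rw [hset, Set.ncard_coe_finset]
  have hNX : (N : ℝ) ≤ X := Nat.floor_le hX0.le
  have hR : Real.log (N + 1) ≤ Real.log X + 1 := by
    have h1 : Real.log ((N : ℝ) + 1) ≤ Real.log (2 * X) :=
      Real.log_le_log (by positivity) (by linarith)
    rw [Real.log_mul (by norm_num) hX0.ne'] at h1
    have h2 := Real.log_two_lt_d9
    linarith
  exact (sol_card N).trans (final_ineq ht
    (Real.log_nonneg (by linarith [Nat.cast_nonneg (α := ℝ) N])) hR)

end Pool.Agent.KFour
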