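import Pool.Agent.Work.MP_d4c219_nt.Defs

/-!
# Simple groups `A_1 (q)` with four prime divisors: reduction
-/

set_option autoImplicit false

namespace Pool.Agent.KFour

open Nat

/-- the bases of the exceptional families -/
def S1 : List ℕ := 2 :: 3 :: P0

/-- members of finitely many geometric families -/
def Exc (q : ℕ) : Prop :=
  ∃ s ∈ S1, ∃ k : ℕ, q = s ^ k ∨ q = s ^ k + 1 ∨ q + 1 = s ^ k ∨ q = 2 * s ^ k + 1 ∨
    q + 1 = 2 * s ^ k

theorem P0_prime : ∀ p ∈ P0, p.Prime := by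
  unfold P0
  intro p hp
  fin_cases hp <;> norm_num

theorem S1_two_le : ∀ s ∈ S1, 2 ≤ s := by
  unfold S1 P0
  decide

theorem smooth_form {n m k : ℕ} (h : n ∣ 2 ^ m * 3 ^ k) : ∃ x y : ℕ, n = 2 ^ x * 3 ^ y := by
  obtain ⟨c, d, hc, hd, rfl⟩ := (Nat.dvd_mul).1 h
  obtain ⟨x, -, rfl⟩ := (Nat.dvd_prime_pow Nat.prime_two).1 hc
  obtain ⟨y, -, rfl⟩ := (Nat.dvd_prime_pow Nat.prime_three).1 hd
  exact ⟨x, y, rfl⟩

/-- `m` coprime to `6` dividing `2 ^ i * 3 ^ j * r ^ b` is a power of `r` -/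
theorem pow_form {m i j r b : ℕ} (hr : r.Prime) (h2 : Nat.Coprime m 2) (h3 : Nat.Coprime m 3)
    (h : m ∣ 2 ^ i * 3 ^ j * r ^ b) (hm : 1 < m) : IsPrimePow m := by
  have h4 : m ∣ r ^ b := by
    have c1 : Nat.Coprime m (2 ^ i * 3 ^ j) :=
      Nat.Coprime.mul_right (h2.pow_right i) (h3.pow_right j)
    exact c1.dvd_of_dvd_mul_left h
  obtain ⟨k, -, hk⟩ := (Nat.dvd_prime_pow hr).1 h4
  rcases Nat.eq_zero_or_pos k with rfl | hk0
  · rw [pow_zero] at hk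
    omega
  · rw [isPrimePow_nat_iff]
    exact ⟨r, k, hr, hk0, hk.symm⟩

theorem cop_add {u y : ℕ} (hu : 1 ≤ u) (hy : 1 ≤ y) :
    Nat.Coprime (2 ^ u * 3 ^ y + 1) 2 ∧ Nat.Coprime (2 ^ u * 3 ^ y + 1) 3 := by
  obtain ⟨u, rfl⟩ := Nat.exists_eq_add_of_le hu
  obtain ⟨y, rfl⟩ := Nat.exists_eq_add_of_le hy
  constructor
  · rw [Nat.coprime_comm, Nat.Prime.coprime_iff_not_dvd Nat.prime_two]
    have : 2 ^ (1 + u) * 3 ^ (1 + y) = 2 * (2 ^ u * 3 ^ (1 + y)) := by ring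
    omega
  · rw [Nat.coprime_comm, Nat.Prime.coprime_iff_not_dvd Nat.prime_three]
    have : 2 ^ (1 + u) * 3 ^ (1 + y) = 3 * (2 ^ (1 + u) * 3 ^ y) := by ring
    omega

theorem cop_sub {u y : ℕ} (hu : 1 ≤ u) (hy : 1 ≤ y) :
    Nat.Coprime (2 ^ u * 3 ^ y - 1) 2 ∧ Nat.Coprime (2 ^ u * 3 ^ y - 1) 3 := by
  obtain ⟨u, rfl⟩ := Nat.exists_eq_add_of_le hu
  obtain ⟨y, rfl⟩ := Nat.exists_eq_add_of_le hy
  have h0 : 0 < 2 ^ (1 + u) * 3 ^ (1 + y) := by positivity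
  constructor
  · rw [Nat.coprime_comm, Nat.Prime.coprime_iff_not_dvd Nat.prime_two]
    have : 2 ^ (1 + u) * 3 ^ (1 + y) = 2 * (2 ^ u * 3 ^ (1 + y)) := by ring
    omega
  · rw [Nat.coprime_comm, Nat.Prime.coprime_iff_not_dvd Nat.prime_three]
    have : 2 ^ (1 + u) * 3 ^ (1 + y) = 3 * (2 ^ (1 + u) * 3 ^ y) := by ring
    omega

/-- the core of the reduction: `q` a power of the prime `p` -/
theorem red_core {q a₁ a₂ p a r b : ℕ} (hq1 : 1 < q) (hodd : q % 2 = 1)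
    (hr : r.Prime) (hr2 : r ≠ 2) (hpq : Nat.Coprime (q ^ 2 - 1) p)
    (h : q * (q ^ 2 - 1) = 2 * (2 ^ a₁ * 3 ^ a₂ * p ^ a * r ^ b)) :
    Exc q ∨ (∃ u y, 1 ≤ u ∧ 1 ≤ y ∧ q = 2 ^ (u + 1) * 3 ^ y + 1 ∧ IsPrimePow (2 ^ u * 3 ^ y + 1)) ∨
      (∃ u y, 1 ≤ u ∧ 1 ≤ y ∧ q + 1 = 2 ^ (u + 1) * 3 ^ y ∧ IsPrimePow (2 ^ u * 3 ^ y - 1)) := by
  have hfac : q ^ 2 - 1 = (q - 1) * (q + 1) := by
    obtain ⟨t, rfl⟩ := Nat.exists_eq_add_of_lt hq1
    have e1 : (1 + t + 1) ^ 2 = (1 + t + 1 - 1) * (1 + t + 1 + 1) + 1 := by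
      have : 1 + t + 1 - 1 = t + 1 := by omega
      rw [this]
      ring
    omega
  have hn : q ^ 2 - 1 ∣ 2 ^ (a₁ + 1) * 3 ^ a₂ * r ^ b := by
    have h1 : q ^ 2 - 1 ∣ (2 ^ (a₁ + 1) * 3 ^ a₂ * r ^ b) * p ^ a := by
      refine Dvd.intro_left q ?_
      rw [h]
      ring
    exact (hpq.pow_right a).dvd_of_dvd_mul_right h1
  have h1 : q - 1 ∣ 2 ^ (a₁ + 1) * 3 ^ a₂ * r ^ b :=
    (Dvd.intro _ hfac.symm).trans hn
  have h2 : q + 1 ∣ 2 ^ (a₁ + 1) * 3 ^ a₂ * r ^ b :=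
    (Dvd.intro_left _ hfac.symm).trans hn
  by_cases hrd : r ∣ q - 1
  · -- `r` does not divide `q + 1`
    have hnd : ¬ r ∣ q + 1 := by
      intro h3
      have h4 : r ∣ (q + 1) - (q - 1) := Nat.dvd_sub h3 hrd
      have h5 : (q + 1) - (q - 1) = 2 := by omega
      rw [h5] at h4
      exact hr2 ((Nat.prime_dvd_prime_iff_eq hr Nat.prime_two).1 h4)
    have h3 : q + 1 ∣ 2 ^ (a₁ + 1) * 3 ^ a₂ := by
      have c1 : Nat.Coprime (q + 1) (r ^ b) :=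
        ((Nat.Prime.coprime_iff_not_dvd hr).2 hnd).symm.pow_right b
      exact c1.dvd_of_dvd_mul_right h2
    obtain ⟨x, y, hxy⟩ := smooth_form h3
    rcases Nat.eq_zero_or_pos y with rfl | hy
    · left
      exact ⟨2, by simp [S1], x, Or.inr (Or.inr (Or.inl (by rw [hxy]; ring)))⟩
    rcases Nat.eq_zero_or_pos x with rfl | hx
    · exfalso
      have h4 : Odd (2 ^ 0 * 3 ^ y) := by
        rw [pow_zero, one_mul]
        exact Odd.pow (by decide)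
      rw [← hxy] at h4
      rw [Nat.odd_iff] at h4
      omega
    obtain ⟨u, rfl⟩ : ∃ u, x = u + 1 := ⟨x - 1, by omega⟩
    rcases Nat.eq_zero_or_pos u with rfl | hu
    · left
      exact ⟨3, by simp [S1], y, Or.inr (Or.inr (Or.inr (Or.inr (by rw [hxy]; ring))))⟩
    · right
      right
      refine ⟨u, y, hu, hy, hxy, ?_⟩
      have hm : q - 1 = 2 * (2 ^ u * 3 ^ y - 1) := by
        have e1 : 2 ^ (u + 1) * 3 ^ y = 2 * (2 ^ u * 3 ^ y) := by ring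
        omega
      have hbig : 6 ≤ 2 ^ u * 3 ^ y := by
        calc 6 = 2 ^ 1 * 3 ^ 1 := by norm_num
          _ ≤ 2 ^ u * 3 ^ y := Nat.mul_le_mul (Nat.pow_le_pow_right (by norm_num) hu)
            (Nat.pow_le_pow_right (by norm_num) hy)
      exact pow_form hr (cop_sub hu hy).1 (cop_sub hu hy).2
        ((Dvd.intro_left _ hm.symm).trans h1) (by omega)
  · have h3 : q - 1 ∣ 2 ^ (a₁ + 1) * 3 ^ a₂ := by
      have c1 : Nat.Coprime (q - 1) (r ^ b) :=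
        ((Nat.Prime.coprime_iff_not_dvd hr).2 hrd).symm.pow_right b
      exact c1.dvd_of_dvd_mul_right h1
    obtain ⟨x, y, hxy⟩ := smooth_form h3
    have hxy' : q = 2 ^ x * 3 ^ y + 1 := by omega
    rcases Nat.eq_zero_or_pos y with rfl | hy
    · left
      exact ⟨2, by simp [S1], x, Or.inr (Or.inl (by rw [hxy']; ring))⟩
    rcases Nat.eq_zero_or_pos x with rfl | hx
    · exfalso
      have h4 : Odd (2 ^ 0 * 3 ^ y) := by
        rw [pow_zero, one_mul]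
        exact Odd.pow (by decide)
      rw [← hxy] at h4
      rw [Nat.odd_iff] at h4
      omega
    obtain ⟨u, rfl⟩ : ∃ u, x = u + 1 := ⟨x - 1, by omega⟩
    rcases Nat.eq_zero_or_pos u with rfl | hu
    · left
      exact ⟨3, by simp [S1], y, Or.inr (Or.inr (Or.inr (Or.inl (by rw [hxy']; ring))))⟩
    · right
      left
      refine ⟨u, y, hu, hy, hxy', ?_⟩
      have hm : q + 1 = 2 * (2 ^ u * 3 ^ y + 1) := by
        rw [hxy']
        ring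
      have hbig : 0 < 2 ^ u * 3 ^ y := by positivity
      exact pow_form hr (cop_add hu hy).1 (cop_add hu hy).2
        ((Dvd.intro_left _ hm.symm).trans h2) (by omega)

theorem red {q : ℕ} (h : Sol q) :
    Exc q ∨ (∃ u y, 1 ≤ u ∧ 1 ≤ y ∧ q = 2 ^ (u + 1) * 3 ^ y + 1 ∧ IsPrimePow (2 ^ u * 3 ^ y + 1)) ∨
      (∃ u y, 1 ≤ u ∧ 1 ≤ y ∧ q + 1 = 2 ^ (u + 1) * 3 ^ y ∧ IsPrimePow (2 ^ u * 3 ^ y - 1)) := by
  obtain ⟨hpp, a₁, a₂, p, a, r, b, -, -, -, -, hp, hr, hp2, hp3, hr2, hr3, hpr, heq⟩ := h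
  obtain ⟨l, k, hl, hk, rfl⟩ := (isPrimePow_nat_iff _).1 hpp
  by_cases hl2 : l = 2
  · subst hl2
    exact Or.inl ⟨2, by simp [S1], k, Or.inl rfl⟩
  by_cases hl3 : l = 3
  · subst hl3
    exact Or.inl ⟨3, by simp [S1], k, Or.inl rfl⟩
  have hodd : Odd (l ^ k) := (hl.odd_of_ne_two hl2).pow
  have hq1 : 1 < l ^ k := Nat.one_lt_pow (by omega) hl.one_lt
  have hgcd : Nat.gcd 2 (l ^ k - 1) = 2 := by
    rw [Nat.gcd_eq_left_iff_dvd]
    rw [Nat.odd_iff] at hodd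
    omega
  rw [hgcd] at heq
  have hcop : Nat.Coprime ((l ^ k) ^ 2 - 1) l := by
    rw [Nat.coprime_comm, Nat.Prime.coprime_iff_not_dvd hl]
    intro h3
    have h4 : l ∣ (l ^ k) ^ 2 := (dvd_pow_self l (by omega)).trans (dvd_pow_self _ (by norm_num))
    have h5 : 0 < (l ^ k) ^ 2 := by positivity
    have h6 : l ∣ (l ^ k) ^ 2 - ((l ^ k) ^ 2 - 1) := Nat.dvd_sub h4 h3
    have h7 : (l ^ k) ^ 2 - ((l ^ k) ^ 2 - 1) = 1 := by omega
    rw [h7] at h6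
    exact hl.one_lt.ne' (Nat.dvd_one.1 h6)
  have hdvd : l ∣ 2 * (2 ^ a₁ * 3 ^ a₂ * p ^ a * r ^ b) := by
    rw [← heq]
    exact (dvd_pow_self l (by omega)).mul_right _
  have hlpr : l = p ∨ l = r := by
    rcases (Nat.Prime.dvd_mul hl).1 hdvd with h1 | h1
    · exact absurd ((Nat.prime_dvd_prime_iff_eq hl Nat.prime_two).1 h1) hl2
    rcases (Nat.Prime.dvd_mul hl).1 h1 with h1 | h1
    · rcases (Nat.Prime.dvd_mul hl).1 h1 with h1 | h1
      · rcases (Nat.Prime.dvd_mul hl).1 h1 with h1 | h1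
        · exact absurd ((Nat.prime_dvd_prime_iff_eq hl Nat.prime_two).1
            (hl.dvd_of_dvd_pow h1)) hl2
        · exact absurd ((Nat.prime_dvd_prime_iff_eq hl Nat.prime_three).1
            (hl.dvd_of_dvd_pow h1)) hl3
      · exact Or.inl ((Nat.prime_dvd_prime_iff_eq hl hp).1 (hl.dvd_of_dvd_pow h1))
    · exact Or.inr ((Nat.prime_dvd_prime_iff_eq hl hr).1 (hl.dvd_of_dvd_pow h1))
  rw [Nat.odd_iff] at hodd
  rcases hlpr with rfl | rfl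
  · exact red_core hq1 hodd hr hr2 hcop heq
  · exact red_core (p := l) (r := p) (a := b) (b := a) (a₁ := a₁) (a₂ := a₂) hq1 hodd hp hp2 hcop
      (by rw [heq]; ring)

/-! ### algebraic factors -/

/-- a prime power `N = D C` with `1 < D`, `1 < C` -/
theorem common_prime {N D C : ℕ} (hN : IsPrimePow N) (h : N = D * C) (hD : 1 < D) (hC : 1 < C) :
    ∃ s k : ℕ, s.Prime ∧ N = s ^ k ∧ s ∣ D ∧ s ∣ C := by
  obtain ⟨s, k, hs, hk, hsk⟩ := (isPrimePow_nat_iff _).1 hN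
  refine ⟨s, k, hs, hsk.symm, ?_, ?_⟩
  · obtain ⟨i, -, hi⟩ := (Nat.dvd_prime_pow hs).1 (show D ∣ s ^ k by rw [hsk, h]; exact dvd_mul_right _ _)
    rcases Nat.eq_zero_or_pos i with rfl | hi0
    · rw [pow_zero] at hi
      omega
    · rw [hi]
      exact dvd_pow_self s (by omega)
  · obtain ⟨i, -, hi⟩ := (Nat.dvd_prime_pow hs).1 (show C ∣ s ^ k by rw [hsk, h]; exact dvd_mul_left _ _)
    rcases Nat.eq_zero_or_pos i with rfl | hi0
    · rw [pow_zero] at hi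
      omega
    · rw [hi]
      exact dvd_pow_self s (by omega)

theorem alg_add {l A : ℕ} (hl : l = 3 ∨ l = 5 ∨ l = 7) (hA : 2 ≤ A) (h : IsPrimePow (A ^ l + 1)) :
    ∃ k, A ^ l + 1 = l ^ k := by
  obtain ⟨t, rfl⟩ : ∃ t, A = t + 1 := ⟨A - 1, by omega⟩
  have ht : 1 ≤ t := by omega
  rcases hl with rfl | rfl | rfl
  · obtain ⟨s, k, hs, hk, h1, h2⟩ := common_prime h
      (show (t + 1) ^ 3 + 1 = (t + 2) * ((t + 1) * t + 1) by ring) (by omega)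
      (by nlinarith [Nat.mul_le_mul ht ht])
    have h3 : (s : ℤ) ∣ 3 := by
      have e : (3 : ℤ) = (((t + 1) * t + 1 : ℕ) : ℤ) - ((t + 2 : ℕ) : ℤ) * ((t : ℤ) - 1) := by
        push_cast
        ring
      rw [e]
      exact dvd_sub (Int.natCast_dvd_natCast.2 h2) ((Int.natCast_dvd_natCast.2 h1).mul_right _)
    have h4 : s ∣ 3 := by exact_mod_cast h3
    rw [(Nat.prime_dvd_prime_iff_eq hs Nat.prime_three).1 h4] at hk
    exact ⟨k, hk⟩
  · obtain ⟨s, k, hs, hk, h1, h2⟩ := common_prime h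
      (show (t + 1) ^ 5 + 1 = (t + 2) * ((t + 1) ^ 3 * t + (t + 1) * t + 1) by ring) (by omega)
      (by nlinarith [Nat.mul_le_mul ht ht, Nat.zero_le ((t + 1) ^ 3 * t)])
    have h3 : (s : ℤ) ∣ 5 := by
      have e : (5 : ℤ) = (((t + 1) ^ 3 * t + (t + 1) * t + 1 : ℕ) : ℤ) - ((t + 2 : ℕ) : ℤ) *
          (((t : ℤ) + 1) ^ 3 - 2 * (t + 1) ^ 2 + 3 * (t + 1) - 4) := by
        push_cast
        ring
      rw [e]
      exact dvd_sub (Int.natCast_dvd_natCast.2 h2) ((Int.natCast_dvd_natCast.2 h1).mul_right _)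
    have h4 : s ∣ 5 := by exact_mod_cast h3
    rw [(Nat.prime_dvd_prime_iff_eq hs Nat.prime_five).1 h4] at hk
    exact ⟨k, hk⟩
  · obtain ⟨s, k, hs, hk, h1, h2⟩ := common_prime h
      (show (t + 1) ^ 7 + 1 = (t + 2) * ((t + 1) ^ 5 * t + (t + 1) ^ 3 * t + (t + 1) * t + 1) by
        ring) (by omega)
      (by nlinarith [Nat.mul_le_mul ht ht, Nat.zero_le ((t + 1) ^ 3 * t),
        Nat.zero_le ((t + 1) ^ 5 * t)])
    have h3 : (s : ℤ) ∣ 7 := by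
      have e : (7 : ℤ) = (((t + 1) ^ 5 * t + (t + 1) ^ 3 * t + (t + 1) * t + 1 : ℕ) : ℤ) -
          ((t + 2 : ℕ) : ℤ) * (((t : ℤ) + 1) ^ 5 - 2 * (t + 1) ^ 4 + 3 * (t + 1) ^ 3 -
            4 * (t + 1) ^ 2 + 5 * (t + 1) - 6) := by
        push_cast
        ring
      rw [e]
      exact dvd_sub (Int.natCast_dvd_natCast.2 h2) ((Int.natCast_dvd_natCast.2 h1).mul_right _)
    have h4 : s ∣ 7 := by exact_mod_cast h3
    rw [(Nat.prime_dvd_prime_iff_eq hs (by norm_num : Nat.Prime 7)).1 h4] at hk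
    exact ⟨k, hk⟩

theorem alg_sub {l A : ℕ} (hl : l = 3 ∨ l = 5 ∨ l = 7) (hA : 3 ≤ A) (h : IsPrimePow (A ^ l - 1)) :
    ∃ k, A ^ l - 1 = l ^ k := by
  obtain ⟨t, rfl⟩ : ∃ t, A = t + 1 := ⟨A - 1, by omega⟩
  have ht : 2 ≤ t := by omega
  rcases hl with rfl | rfl | rfl
  · obtain ⟨s, k, hs, hk, h1, h2⟩ := common_prime h
      (show (t + 1) ^ 3 - 1 = t * (t ^ 2 + 3 * t + 3) by
        rw [Nat.sub_eq_iff_eq_add (Nat.one_le_pow _ _ (by omega))]; ring) (by omega)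
      (by nlinarith [Nat.mul_le_mul ht ht])
    have h3 : s ∣ 3 := by
      have e : t ^ 2 + 3 * t + 3 = t * (t + 3) + 3 := by ring
      rw [e] at h2
      exact (Nat.dvd_add_right (h1.mul_right _)).1 h2
    rw [(Nat.prime_dvd_prime_iff_eq hs Nat.prime_three).1 h3] at hk
    exact ⟨k, hk⟩
  · obtain ⟨s, k, hs, hk, h1, h2⟩ := common_prime h
      (show (t + 1) ^ 5 - 1 = t * (t ^ 4 + 5 * t ^ 3 + 10 * t ^ 2 + 10 * t + 5) by
        rw [Nat.sub_eq_iff_eq_add (Nat.one_le_pow _ _ (by omega))]; ring) (by omega)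
      (by omega)
    have h3 : s ∣ 5 := by
      have e : t ^ 4 + 5 * t ^ 3 + 10 * t ^ 2 + 10 * t + 5 =
          t * (t ^ 3 + 5 * t ^ 2 + 10 * t + 10) + 5 := by ring
      rw [e] at h2
      exact (Nat.dvd_add_right (h1.mul_right _)).1 h2
    rw [(Nat.prime_dvd_prime_iff_eq hs Nat.prime_five).1 h3] at hk
    exact ⟨k, hk⟩
  · obtain ⟨s, k, hs, hk, h1, h2⟩ := common_prime h
      (show (t + 1) ^ 7 - 1 = t * (t ^ 6 + 7 * t ^ 5 + 21 * t ^ 4 + 35 * t ^ 3 + 35 * t ^ 2 +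
          21 * t + 7) by
        rw [Nat.sub_eq_iff_eq_add (Nat.one_le_pow _ _ (by omega))]; ring) (by omega)
      (by omega)
    have h3 : s ∣ 7 := by
      have e : t ^ 6 + 7 * t ^ 5 + 21 * t ^ 4 + 35 * t ^ 3 + 35 * t ^ 2 + 21 * t + 7 =
          t * (t ^ 5 + 7 * t ^ 4 + 21 * t ^ 3 + 35 * t ^ 2 + 35 * t + 21) + 7 := by ring
      rw [e] at h2
      exact (Nat.dvd_add_right (h1.mul_right _)).1 h2
    rw [(Nat.prime_dvd_prime_iff_eq hs (by norm_num : Nat.Prime 7)).1 h3] at hk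
    exact ⟨k, hk⟩

theorem not_sq_sub {A : ℕ} (hA : 3 ≤ A) (he : A % 2 = 0) : ¬ IsPrimePow (A ^ 2 - 1) := by
  intro h
  obtain ⟨t, rfl⟩ : ∃ t, A = t + 1 := ⟨A - 1, by omega⟩
  obtain ⟨s, k, hs, hk, h1, h2⟩ := common_prime h
    (show (t + 1) ^ 2 - 1 = t * (t + 2) by
      rw [Nat.sub_eq_iff_eq_add (Nat.one_le_pow _ _ (by omega))]; ring) (by omega) (by omega)
  have h3 : s ∣ 2 := (Nat.dvd_add_right h1).1 h2
  rw [(Nat.prime_dvd_prime_iff_eq hs Nat.prime_two).1 h3] at h1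
  omega

/-- `2 ^ u 3 ^ y` as an `l`-th power -/
theorem pow_mul_form {l u y : ℕ} (hu : l ∣ u) (hy : l ∣ y) :
    2 ^ u * 3 ^ y = (2 ^ (u / l) * 3 ^ (y / l)) ^ l := by
  rw [mul_pow, ← pow_mul, ← pow_mul, Nat.div_mul_cancel hu, Nat.div_mul_cancel hy]

theorem base_ge {l u y : ℕ} (hl : 0 < l) (hy0 : 1 ≤ y) (hy : l ∣ y) :
    3 ≤ 2 ^ (u / l) * 3 ^ (y / l) := by
  have h1 : 1 ≤ y / l := Nat.div_pos (Nat.le_of_dvd hy0 hy) hl
  calc 3 = 1 * 3 ^ 1 := by norm_num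
    _ ≤ 2 ^ (u / l) * 3 ^ (y / l) := Nat.mul_le_mul Nat.one_le_two_pow
      (Nat.pow_le_pow_right (by norm_num) h1)

theorem mem_S1 {l : ℕ} (hl : l = 3 ∨ l = 5 ∨ l = 7) : l ∈ S1 := by
  rcases hl with rfl | rfl | rfl <;> simp [S1, P0]

theorem goodP_of {u y : ℕ} (hy : 1 ≤ y) (hq : IsPrimePow (2 ^ (u + 1) * 3 ^ y + 1))
    (hm : IsPrimePow (2 ^ u * 3 ^ y + 1)) :
    Exc (2 ^ (u + 1) * 3 ^ y + 1) ∨ GoodP u y := by
  by_contra hcon
  rw [not_or] at hcon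
  obtain ⟨hE, hG⟩ := hcon
  apply hG
  have key : ∀ (s : ℕ), s ∈ S1 → ∀ k, 2 ^ u * 3 ^ y + 1 = s ^ k → False := by
    intro s hs k hk
    apply hE
    refine ⟨s, hs, k, Or.inr (Or.inr (Or.inr (Or.inr ?_)))⟩
    rw [← hk]
    ring
  have key2 : ∀ (s : ℕ), s ∈ S1 → ∀ k, 2 ^ (u + 1) * 3 ^ y + 1 = s ^ k → False := by
    intro s hs k hk
    exact hE ⟨s, hs, k, Or.inl hk⟩
  constructor
  · intro l hl hdiv
    have hl' : l = 3 ∨ l = 5 ∨ l = 7 := by simpa using hl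
    have hl0 : 0 < l := by omega
    obtain ⟨h1, h2 | h2⟩ := hdiv
    · have hA := base_ge (u := u) hl0 hy h1
      rw [pow_mul_form h2 h1] at hm
      obtain ⟨k, hk⟩ := alg_add hl' (by omega) hm
      rw [← pow_mul_form h2 h1] at hk
      exact key l (mem_S1 hl') k hk
    · have hA := base_ge (u := u + 1) hl0 hy h1
      rw [pow_mul_form h2 h1] at hq
      obtain ⟨k, hk⟩ := alg_add hl' (by omega) hq
      rw [← pow_mul_form h2 h1] at hk
      exact key2 l (mem_S1 hl') k hk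
  · intro p hp
    have hpp := P0_prime p hp
    constructor
    · intro h
      obtain ⟨s, k, hs, hk, hsk⟩ := (isPrimePow_nat_iff _).1 hm
      have h1 : p ∣ s ^ k := by
        rw [hsk]
        exact Nat.dvd_of_mod_eq_zero h
      rw [← (Nat.prime_dvd_prime_iff_eq hpp hs).1 (hpp.dvd_of_dvd_pow h1)] at hsk
      exact key p (by simp [S1, hp]) k hsk.symm
    · intro h
      obtain ⟨s, k, hs, hk, hsk⟩ := (isPrimePow_nat_iff _).1 hq
      have h1 : p ∣ s ^ k := by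
        rw [hsk]
        exact Nat.dvd_of_mod_eq_zero h
      rw [← (Nat.prime_dvd_prime_iff_eq hpp hs).1 (hpp.dvd_of_dvd_pow h1)] at hsk
      exact key2 p (by simp [S1, hp]) k hsk.symm

theorem goodM_of {q u y : ℕ} (hu : 1 ≤ u) (hy : 1 ≤ y) (hq : IsPrimePow q)
    (hqe : q + 1 = 2 ^ (u + 1) * 3 ^ y) (hm : IsPrimePow (2 ^ u * 3 ^ y - 1)) :
    Exc q ∨ GoodM u y := by
  by_contra hcon
  rw [not_or] at hcon
  obtain ⟨hE, hG⟩ := hcon
  apply hG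
  have hq' : q = 2 ^ (u + 1) * 3 ^ y - 1 := by omega
  have hpos : 6 ≤ 2 ^ u * 3 ^ y := by
    calc 6 = 2 ^ 1 * 3 ^ 1 := by norm_num
      _ ≤ 2 ^ u * 3 ^ y := Nat.mul_le_mul (Nat.pow_le_pow_right (by norm_num) hu)
        (Nat.pow_le_pow_right (by norm_num) hy)
  have hdbl : 2 ^ (u + 1) * 3 ^ y = 2 * (2 ^ u * 3 ^ y) := by ring
  have key : ∀ (s : ℕ), s ∈ S1 → ∀ k, 2 ^ u * 3 ^ y - 1 = s ^ k → False := by
    intro s hs k hk
    apply hE
    refine ⟨s, hs, k, Or.inr (Or.inr (Or.inr (Or.inl ?_)))⟩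
    rw [← hk]
    omega
  have key2 : ∀ (s : ℕ), s ∈ S1 → ∀ k, 2 ^ (u + 1) * 3 ^ y - 1 = s ^ k → False := by
    intro s hs k hk
    exact hE ⟨s, hs, k, Or.inl (by rw [hq', hk])⟩
  rw [hq'] at hq
  refine ⟨?_, ?_, ?_⟩
  · -- `y` is odd
    by_contra hodd
    have hy2 : 2 ∣ y := by omega
    rcases Nat.even_or_odd u with hue | huo
    · have hu2 : 2 ∣ u := hue.two_dvd
      have hA := base_ge (u := u) (by norm_num) hy hy2
      rw [pow_mul_form hu2 hy2] at hm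
      refine not_sq_sub hA ?_ hm
      have h1 : 1 ≤ u / 2 := by omega
      obtain ⟨v, hv⟩ := Nat.exists_eq_add_of_le h1
      rw [hv, pow_add, pow_one, mul_assoc]
      omega
    · have hu2 : 2 ∣ u + 1 := by
        obtain ⟨v, hv⟩ := huo
        omega
      have hA := base_ge (u := u + 1) (by norm_num) hy hy2
      rw [pow_mul_form hu2 hy2] at hq
      refine not_sq_sub hA ?_ hq
      have h1 : 1 ≤ (u + 1) / 2 := by omega
      obtain ⟨v, hv⟩ := Nat.exists_eq_add_of_le h1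
      rw [hv, pow_add, pow_one, mul_assoc]
      omega
  · intro l hl hdiv
    have hl' : l = 3 ∨ l = 5 ∨ l = 7 := by simpa using hl
    have hl0 : 0 < l := by omega
    obtain ⟨h1, h2 | h2⟩ := hdiv
    · have hA := base_ge (u := u) hl0 hy h1
      rw [pow_mul_form h2 h1] at hm
      obtain ⟨k, hk⟩ := alg_sub hl' hA hm
      rw [← pow_mul_form h2 h1] at hk
      exact key l (mem_S1 hl') k hk
    · have hA := base_ge (u := u + 1) hl0 hy h1
      rw [pow_mul_form h2 h1] at hq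
      obtain ⟨k, hk⟩ := alg_sub hl' hA hq
      rw [← pow_mul_form h2 h1] at hk
      exact key2 l (mem_S1 hl') k hk
  · intro p hp
    have hpp := P0_prime p hp
    constructor
    · intro h
      obtain ⟨s, k, hs, hk, hsk⟩ := (isPrimePow_nat_iff _).1 hm
      have h1 : p ∣ s ^ k := by
        rw [hsk]
        have h2 := Nat.div_add_mod (2 ^ u * 3 ^ y) p
        rw [h] at h2
        exact ⟨2 ^ u * 3 ^ y / p, by omega⟩
      rw [← (Nat.prime_dvd_prime_iff_eq hpp hs).1 (hpp.dvd_of_dvd_pow h1)] at hsk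
      exact key p (by simp [S1, hp]) k hsk.symm
    · intro h
      obtain ⟨s, k, hs, hk, hsk⟩ := (isPrimePow_nat_iff _).1 hq
      have h1 : p ∣ s ^ k := by
        rw [hsk]
        have h2 := Nat.div_add_mod (2 ^ (u + 1) * 3 ^ y) p
        rw [h] at h2
        exact ⟨2 ^ (u + 1) * 3 ^ y / p, by omega⟩
      rw [← (Nat.prime_dvd_prime_iff_eq hpp hs).1 (hpp.dvd_of_dvd_pow h1)] at hsk
      exact key2 p (by simp [S1, hp]) k hsk.symm

/-- a solution is in one of the exceptional families or comes from a good pair of exponents -/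
theorem sol_cases {q : ℕ} (h : Sol q) :
    Exc q ∨ (∃ u y, GoodP u y ∧ q = 2 ^ (u + 1) * 3 ^ y + 1) ∨
      (∃ u y, GoodM u y ∧ q + 1 = 2 ^ (u + 1) * 3 ^ y) := by
  rcases red h with h1 | ⟨u, y, hu, hy, hq, hm⟩ | ⟨u, y, hu, hy, hq, hm⟩
  · exact Or.inl h1
  · have hpp := h.1
    rw [hq] at hpp
    rcases goodP_of hy hpp hm with h1 | h1
    · left
      rw [hq]
      exact h1
    · exact Or.inr (Or.inl ⟨u, y, h1, hq⟩)
  · rcases goodM_of hu hy h.1 hq hm with h1 | h1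
    · exact Or.inl h1
    · exact Or.inr (Or.inr ⟨u, y, h1, hq⟩)

end Pool.Agent.KFour
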